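import Pool.Agent.P8H50.NK.Stm2
import Pool.Agent.W603.PV.Main

/-! Project NK, package ACO: the core of the algebraic version. -/

set_option autoImplicit false

namespace Pool.Agent.P8H53.NK

open FF Pool.Agent.W603.LV Pool.Agent.W603.PV
open Pool.Agent.P8H50.NK (lk WtsF S_AOW S_ACO)
open Pool.Agent.N750 (rk)

section basics

variable {k K : Type} [Field k] [Field K] [Algebra k K]

theorem lk_single {n : ℕ} (f : Fin n → K) (l : Fin n) : lk (Pi.single l (1 : k)) f = f l := by
  classical
  unfold lk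
  rw [Finset.sum_eq_single l]
  · rw [Pi.single_eq_same, map_one, one_mul]
  · intro i _ hi
    rw [Pi.single_eq_of_ne hi, map_zero, zero_mul]
  · intro h
    exact absurd (Finset.mem_univ l) h

theorem lk_add {n : ℕ} (f : Fin n → K) (a b : Fin n → k) : lk (a + b) f = lk a f + lk b f := by
  unfold lk
  rw [← Finset.sum_add_distrib]
  exact Finset.sum_congr rfl fun i _ => by rw [Pi.add_apply, map_add, add_mul]

theorem lk_smul {n : ℕ} (f : Fin n → K) (c : k) (a : Fin n → k) :
    lk (c • a) f = algebraMap k K c * lk a f := by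
  unfold lk
  rw [Finset.mul_sum]
  exact Finset.sum_congr rfl fun i _ => by rw [Pi.smul_apply, smul_eq_mul, map_mul, mul_assoc]

theorem lk_ne {n : ℕ} {f : Fin n → K} (hf : LinearIndependent k f) {b : Fin n → k} (hb : b ≠ 0) :
    lk b f ≠ 0 := by
  intro h
  apply hb
  funext i
  refine Fintype.linearIndependent_iff.1 hf b ?_ i
  rw [← h]
  unfold lk
  exact Finset.sum_congr rfl fun i _ => Algebra.smul_def _ _

theorem ge_lk (P : Place k K) {n : ℕ} (f : Fin (n + 1) → K) (b : Fin (n + 1) → k) :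
    Ge P (pord P f) (lk b f) := by
  unfold lk
  refine Ge.sum _ _ fun i _ => ?_
  have h := (Ge.const (P := P) (b i)).mul (ge_pord P f i)
  rwa [zero_add] at h

theorem exists_ne {n : ℕ} {f : Fin (n + 1) → K} (hf : LinearIndependent k f) : ∃ j, f j ≠ 0 :=
  ⟨0, hf.ne_zero 0⟩

/-- forms of full rank cannot all vanish at a place -/
theorem rk_lt (P : Place k K) {n q : ℕ} {f : Fin (n + 1) → K} (hf : LinearIndependent k f)
    (M : Fin q → Fin (n + 1) → k) (S : Finset (Fin q))
    (hS : ∀ j ∈ S, pord P f < P.ord (lk (M j) f)) : rk k M S < n + 1 := by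
  by_contra hcon
  push Not at hcon
  have h1 : Submodule.span k (M '' (S : Set (Fin q))) = ⊤ := by
    apply Submodule.eq_top_of_finrank_eq
    refine le_antisymm (Submodule.finrank_le _) ?_
    rw [Module.finrank_fin_fun]
    exact hcon
  have h2 : ∀ v : Fin (n + 1) → k, Ge P (pord P f + 1) (lk v f) := by
    intro v
    have hv : v ∈ Submodule.span k (M '' (S : Set (Fin q))) := by
      rw [h1]
      exact Submodule.mem_top
    induction hv using Submodule.span_induction with
    | mem x hx =>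
      obtain ⟨j, hj, rfl⟩ := hx
      exact Or.inr (hS j hj)
    | zero =>
      left
      unfold lk
      exact Finset.sum_eq_zero fun i _ => by rw [Pi.zero_apply, map_zero, zero_mul]
    | add x y _ _ hx hy =>
      rw [lk_add]
      exact hx.add hy
    | smul a x _ hx =>
      rw [lk_smul]
      have h := (Ge.const (P := P) a).mul hx
      rwa [zero_add] at h
  obtain ⟨l, hl, hl'⟩ := exists_pord P (exists_ne hf)
  have h3 := h2 (Pi.single l 1)
  rw [lk_single] at h3
  have h4 := h3.resolve_left hl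
  omega

end basics

section wronski

variable {k K : Type} [Field k] [Field K] [Algebra k K] [CharZero k] [IsFF k K] [IsAlgClosed k]

/-- the order of the Wronskian at a place, without loss -/
theorem wr_reg {n : ℕ} {f : Fin (n + 1) → K} (hf : LinearIndependent k f) {D : Derivation k K K}
    (hD : D ≠ 0) (P : Place k K) :
    0 ≤ P.ord (wr D f) - (n + 1) * pord P f - tri (n + 1) * vo P D := by
  classical
  have hW : wr D f ≠ 0 := wr_ne_zero hD f hf
  set μ := pord P f with hμ
  set π := unif P with hπd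
  have hπ : P.ord π = 1 := ord_unif P
  have hπ0 : π ≠ 0 := by
    intro h
    rw [h, P.ord_zero] at hπ; omega
  have hu0 : D π ≠ 0 := der_pi_ne_zero hD P hπ
  set u := D π with hu
  set δ : Derivation k K K := u⁻¹ • D with hδd
  have hδ : δ π = 1 := by
    rw [hδd, Derivation.coe_smul, Pi.smul_apply, smul_eq_mul, ← hu, inv_mul_cancel₀ hu0]
  have hDδ : D = u • δ := by
    rw [hδd, smul_smul, mul_inv_cancel₀ hu0, one_smul]
  set c := π ^ μ with hc
  have hc0 : c ≠ 0 := zpow_ne_zero _ hπ0
  have hcord : P.ord c = μ := by rw [hc, P.ord_zpow, hπ, mul_one]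
  set g : Fin (n + 1) → K := fun l => f l / c with hg
  have hfg : f = fun l => c * g l := by
    funext l
    simp only [hg]; field_simp
  have h2 : wr D f = (∏ r : Fin (n + 1), u ^ (r : ℕ) * c) * wr δ g := by
    conv_lhs => rw [hDδ, hfg]
    exact wr_change δ u c g
  have hWg : wr δ g ≠ 0 := by
    intro h0
    rw [h0, mul_zero] at h2
    exact hW h2
  have hprod0 : (∏ r : Fin (n + 1), u ^ (r : ℕ) * c) ≠ 0 :=
    Finset.prod_ne_zero_iff.2 fun r _ => mul_ne_zero (pow_ne_zero _ hu0) hc0
  have hprod : P.ord (∏ r : Fin (n + 1), u ^ (r : ℕ) * c) =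
      tri (n + 1) * vo P D + (n + 1) * μ := by
    have h3 : ∀ s : Finset (Fin (n + 1)), P.ord (∏ r ∈ s, u ^ (r : ℕ) * c) =
        ∑ r ∈ s, (((r : ℕ) : ℤ) * vo P D + μ) := by
      intro s
      induction s using Finset.induction_on with
      | empty => simpa using P.ord_one
      | insert a s ha ih =>
        rw [Finset.prod_insert ha, Finset.sum_insert ha, P.ord_mul
          (mul_ne_zero (pow_ne_zero _ hu0) hc0)
          (Finset.prod_ne_zero_iff.2 fun r _ => mul_ne_zero (pow_ne_zero _ hu0) hc0), ih,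
          P.ord_mul (pow_ne_zero _ hu0) hc0, P.ord_pow, hcord]
        rfl
    rw [h3, Finset.sum_add_distrib, ← Finset.sum_mul]
    simp [tri]
  have hgG : ∀ l, Ge P ((0 : ℕ) : ℤ) (g l) := by
    intro l
    by_cases hl : f l = 0
    · left
      simp only [hg, hl, zero_div]
    · right
      simp only [hg]
      rw [P.ord_div hl hc0, hcord]
      have := pord_le P hl
      push_cast
      omega
  have hL : Ge P 0 (wr δ g) := by
    unfold wr
    refine ge_det P _ _ (fun _ _ => 0) (fun i r => ?_) (fun σ => by simp)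
    have h := ge_iter P hπ hδ (hgG i) r
    rw [Nat.zero_sub] at h
    exact h
  have hLo := hL.resolve_left hWg
  rw [h2, P.ord_mul hprod0 hWg, hprod]
  linarith

theorem tri_eq (m : ℕ) : ((tri (m + 1) : ℤ) : ℝ) = ((m : ℝ) + 1) * m / 2 := by
  have h : ((tri (m + 1) : ℤ) : ℝ) = ∑ i ∈ Finset.range (m + 1), (i : ℝ) := by
    unfold tri
    rw [Finset.sum_range]
    push_cast
    rfl
  rw [h]
  induction m with
  | zero => simp
  | succ m ih =>
    rw [Finset.sum_range_succ]
    rw [ih]
    · push_cast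
      ring
    · unfold tri
      rw [Finset.sum_range]
      push_cast
      rfl

/-- the weighted sum at a place -/
theorem wsum (hA : S_AOW) {n q : ℕ} {f : Fin (n + 1) → K} (hf : LinearIndependent k f)
    {M : Fin q → Fin (n + 1) → k} {ω : Fin q → ℝ} (hW : WtsF M ω) (hM : ∀ j, M j ≠ 0)
    {D : Derivation k K K} (hD : D ≠ 0) (P : Place k K) :
    ∑ j, ω j * ((P.ord (lk (M j) f) - pord P f : ℤ) : ℝ) ≤
      ((P.ord (wr D f) - (n + 1) * pord P f - tri (n + 1) * vo P D : ℤ) : ℝ) +
        ((tri (n + 1) : ℤ) : ℝ) := by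
  classical
  have h0 : ∀ j, 0 ≤ P.ord (lk (M j) f) - pord P f := by
    intro j
    have h := (ge_lk P f (M j)).resolve_left (lk_ne hf (hM j))
    omega
  set S : Finset (Fin q) := Finset.univ.filter fun j => 0 < P.ord (lk (M j) f) - pord P f with hS
  have hrk : rk k M S < n + 1 := by
    refine rk_lt P hf M S fun j hj => ?_
    have h := (Finset.mem_filter.1 hj).2
    omega
  obtain ⟨b, hbS, hb, hsum⟩ := Pool.Agent.N750.greedy (F := k) M ω S.card S rfl
    (fun j => ((P.ord (lk (M j) f) - pord P f : ℤ) : ℝ)) (fun j => by exact_mod_cast h0 j)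
    (fun j hj => by
      have h := (Finset.mem_filter.1 hj).2
      exact_mod_cast h)
    (fun A' hA' => hW.le A' (lt_of_le_of_lt (Pool.Agent.N750.rk_mono M A' S hA') hrk))
  have h1 := hA k K n q M f hf D hD b hb P
  have h2 : ∑ j, ω j * ((P.ord (lk (M j) f) - pord P f : ℤ) : ℝ) =
      ∑ j ∈ S, ω j * ((P.ord (lk (M j) f) - pord P f : ℤ) : ℝ) := by
    symm
    refine Finset.sum_subset (Finset.subset_univ _) fun j _ hj => ?_
    have h3 : ¬ 0 < P.ord (lk (M j) f) - pord P f := fun h =>
      hj (Finset.mem_filter.2 ⟨Finset.mem_univ _, h⟩)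
    have h4 : P.ord (lk (M j) f) - pord P f = 0 := le_antisymm (not_lt.1 h3) (h0 j)
    rw [h4]
    simp
  rw [h2]
  refine hsum.trans ?_
  have h3 : (((∑ l ∈ b, (P.ord (lk (M l) f) - pord P f) : ℤ)) : ℝ) ≤
      ((P.ord (wr D f) - (n + 1) * pord P f - tri (n + 1) * vo P D + tri (n + 1) : ℤ) : ℝ) := by
    exact_mod_cast h1
  push_cast at h3 ⊢
  linarith

end wronski

/-- package ACO -/
theorem aco (hA : S_AOW) : S_ACO := by
  intro k K _ _ _ _ _ _ s n q M ω e m c f hW hf hM hc he hm hP
  classical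
  set D := der k K with hDd
  have hD : D ≠ 0 := der_ne
  have h0 : ∀ (P : Place k K) i j, 0 ≤ P.ord (lk (M i j) (f i)) - pord P (f i) := by
    intro P i j
    have h := (ge_lk P (f i) (M i j)).resolve_left (lk_ne (hf i) (hM i j))
    omega
  -- the local inequality
  have hloc : ∀ P : Place k K, 0 ≤
      ∑ i, c i * ((P.ord (wr D (f i)) - (n i + 1) * pord P (f i) -
        tri (n i + 1) * vo P D : ℤ) : ℝ) +
      ∑ i, ∑ j, ((e i j : ℝ) - c i * ω i j) * ((P.ord (lk (M i j) (f i)) - pord P (f i) : ℤ) : ℝ) := by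
    intro P
    have hsplit : ∑ i, ∑ j, ((e i j : ℝ) - c i * ω i j) *
        ((P.ord (lk (M i j) (f i)) - pord P (f i) : ℤ) : ℝ) =
        ∑ i, ∑ j, (e i j : ℝ) * ((P.ord (lk (M i j) (f i)) - pord P (f i) : ℤ) : ℝ) -
        ∑ i, c i * ∑ j, ω i j * ((P.ord (lk (M i j) (f i)) - pord P (f i) : ℤ) : ℝ) := by
      rw [← Finset.sum_sub_distrib]
      refine Finset.sum_congr rfl fun i _ => ?_
      rw [Finset.mul_sum, ← Finset.sum_sub_distrib]
      exact Finset.sum_congr rfl fun j _ => by ring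
    rcases hP P with h | h
    · -- all orders are zero
      have hz : ∀ i j, P.ord (lk (M i j) (f i)) - pord P (f i) = 0 := by
        intro i j
        have h1 : ∀ i, 0 ≤ ∑ j, (e i j : ℤ) * (P.ord (lk (M i j) (f i)) - pord P (f i)) := fun i =>
          Finset.sum_nonneg fun j _ => mul_nonneg (by positivity) (h0 P i j)
        have h2 := (Finset.sum_eq_zero_iff_of_nonneg fun i _ => h1 i).1 h i (Finset.mem_univ i)
        have h3 := (Finset.sum_eq_zero_iff_of_nonneg fun j _ =>
          mul_nonneg (by positivity) (h0 P i j)).1 h2 j (Finset.mem_univ j)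
        rcases mul_eq_zero.1 h3 with h4 | h4
        · have := he i j
          omega
        · exact h4
      have h5 : ∑ i, ∑ j, ((e i j : ℝ) - c i * ω i j) *
          ((P.ord (lk (M i j) (f i)) - pord P (f i) : ℤ) : ℝ) = 0 := by
        refine Finset.sum_eq_zero fun i _ => Finset.sum_eq_zero fun j _ => ?_
        rw [hz i j]
        simp
      rw [h5, add_zero]
      refine Finset.sum_nonneg fun i _ => mul_nonneg (hc i) ?_
      exact_mod_cast wr_reg (hf i) hD P
    · rw [hsplit]
      have h1 : ∑ i, c i * ∑ j, ω i j * ((P.ord (lk (M i j) (f i)) - pord P (f i) : ℤ) : ℝ) ≤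
          ∑ i, c i * (((P.ord (wr D (f i)) - (n i + 1) * pord P (f i) -
            tri (n i + 1) * vo P D : ℤ) : ℝ) + ((tri (n i + 1) : ℤ) : ℝ)) :=
        Finset.sum_le_sum fun i _ => mul_le_mul_of_nonneg_left
          (wsum hA (hf i) (hW i) (hM i) hD P) (hc i)
      have h2 : ∑ i, c i * (((P.ord (wr D (f i)) - (n i + 1) * pord P (f i) -
            tri (n i + 1) * vo P D : ℤ) : ℝ) + ((tri (n i + 1) : ℤ) : ℝ)) =
          ∑ i, c i * ((P.ord (wr D (f i)) - (n i + 1) * pord P (f i) -
            tri (n i + 1) * vo P D : ℤ) : ℝ) + ∑ i, c i * (((n i : ℝ) + 1) * n i / 2) := by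
        rw [← Finset.sum_add_distrib]
        refine Finset.sum_congr rfl fun i _ => ?_
        rw [tri_eq (n i), mul_add]
      have h3 : (m : ℝ) ≤ ∑ i, ∑ j, (e i j : ℝ) *
          ((P.ord (lk (M i j) (f i)) - pord P (f i) : ℤ) : ℝ) := by
        have h4 : (((m : ℤ)) : ℝ) ≤ ((∑ i, ∑ j, (e i j : ℤ) *
            (P.ord (lk (M i j) (f i)) - pord P (f i)) : ℤ) : ℝ) := by exact_mod_cast h
        push_cast at h4 ⊢
        exact h4
      linarith
  -- the places
  obtain ⟨T1, hT1⟩ := exists_supp (k := k) (Finset.univ : Finset (Fin s)) fun i => wr D (f i)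
  have hT2 : ∀ i, ∃ T : Finset (Place k K), ∀ j, ∀ P : Place k K,
      P.ord (lk (M i j) (f i)) ≠ 0 → P ∈ T := by
    intro i
    obtain ⟨T, hT⟩ := exists_supp (k := k) (Finset.univ : Finset (Fin (q i)))
      fun j => lk (M i j) (f i)
    exact ⟨T, fun j => hT j (Finset.mem_univ j)⟩
  choose T2 hT2 using hT2
  set T : Finset (Place k K) := T1 ∪ (Finset.univ.biUnion T2) ∪ (vo_finite hD).toFinset ∪
    Finset.univ.biUnion (fun i => (pord_finite (k := k) (exists_ne (hf i))).toFinset) with hT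
  have hs1 : ∀ i, ∑ P ∈ T, P.ord (wr D (f i)) = 0 := fun i => sum_ord_finset _ T fun P hP =>
    Finset.mem_union_left _ (Finset.mem_union_left _ (Finset.mem_union_left _
      (hT1 i (Finset.mem_univ i) P hP)))
  have hs2 : ∀ i j, ∑ P ∈ T, P.ord (lk (M i j) (f i)) = 0 := fun i j =>
    sum_ord_finset _ T fun P hP =>
      Finset.mem_union_left _ (Finset.mem_union_left _ (Finset.mem_union_right _
        (Finset.mem_biUnion.2 ⟨i, Finset.mem_univ i, hT2 i j P hP⟩)))
  have hs3 : ∑ P ∈ T, vo P D = - canDeg k K := canDeg_finset hD T fun P hP =>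
    Finset.mem_union_left _ (Finset.mem_union_right _ ((vo_finite hD).mem_toFinset.2 hP))
  have hs4 : ∀ i, ∑ P ∈ T, pord P (f i) = - pht k (f i) := by
    intro i
    unfold pht
    rw [neg_neg, finsum_eq_sum_of_support_subset (s := T)]
    intro P hP
    refine Finset.mem_union_right _ (Finset.mem_biUnion.2 ⟨i, Finset.mem_univ i, ?_⟩)
    rw [Set.Finite.mem_toFinset]
    exact hP
  have hsum := Finset.sum_nonneg fun P (_ : P ∈ T) => hloc P
  rw [Finset.sum_add_distrib, Finset.sum_comm] at hsum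
  have e1 : ∀ i, ∑ P ∈ T, c i * ((P.ord (wr D (f i)) - (n i + 1) * pord P (f i) -
      tri (n i + 1) * vo P D : ℤ) : ℝ) =
      c i * (((n i : ℝ) + 1) * (pht k (f i) : ℝ) + ((n i : ℝ) + 1) * n i / 2 * (canDeg k K : ℝ)) := by
    intro i
    rw [← Finset.mul_sum]
    congr 1
    have h1 : ∑ P ∈ T, (P.ord (wr D (f i)) - (n i + 1) * pord P (f i) -
        tri (n i + 1) * vo P D) = (n i + 1) * pht k (f i) + tri (n i + 1) * canDeg k K := by
      rw [Finset.sum_sub_distrib, Finset.sum_sub_distrib, ← Finset.mul_sum, ← Finset.mul_sum,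
        hs1, hs3, hs4]
      ring
    rw [← tri_eq (n i)]
    have h2 := congrArg (fun z : ℤ => (z : ℝ)) h1
    rw [Int.cast_sum] at h2
    rw [h2]
    push_cast
    ring
  have e2 : ∑ P ∈ T, ∑ i, ∑ j, ((e i j : ℝ) - c i * ω i j) *
      ((P.ord (lk (M i j) (f i)) - pord P (f i) : ℤ) : ℝ) =
      ∑ i, ∑ j, ((e i j : ℝ) - c i * ω i j) * (pht k (f i) : ℝ) := by
    rw [Finset.sum_comm]
    refine Finset.sum_congr rfl fun i _ => ?_
    rw [Finset.sum_comm]
    refine Finset.sum_congr rfl fun j _ => ?_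
    rw [← Finset.mul_sum]
    congr 1
    have h1 : ∑ P ∈ T, (P.ord (lk (M i j) (f i)) - pord P (f i)) = pht k (f i) := by
      rw [Finset.sum_sub_distrib, hs2, hs4]
      ring
    rw [← h1]
    push_cast
    rfl
  rw [e2, Finset.sum_congr rfl fun i _ => e1 i] at hsum
  have e3 : ∀ i, ∑ j, ((e i j : ℝ) - c i * ω i j) * (pht k (f i) : ℝ) =
      (∑ j, (e i j : ℝ) - c i * ∑ j, ω i j) * (pht k (f i) : ℝ) := by
    intro i
    rw [← Finset.sum_mul, Finset.sum_sub_distrib, Finset.mul_sum]
  rw [Finset.sum_congr rfl fun i _ => e3 i] at hsum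
  have e4 : ∑ i, (c i * (∑ j, ω i j - (n i + 1)) - ∑ j, (e i j : ℝ)) * (pht k (f i) : ℝ) =
      (∑ i, c i * (((n i : ℝ) + 1) * n i / 2)) * (canDeg k K : ℝ) -
      (∑ i, c i * (((n i : ℝ) + 1) * (pht k (f i) : ℝ) +
        ((n i : ℝ) + 1) * n i / 2 * (canDeg k K : ℝ)) +
      ∑ i, (∑ j, (e i j : ℝ) - c i * ∑ j, ω i j) * (pht k (f i) : ℝ)) := by
    rw [Finset.sum_mul, ← Finset.sum_add_distrib, ← Finset.sum_sub_distrib]
    exact Finset.sum_congr rfl fun i _ => by ring
  rw [e4]
  linarith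

end Pool.Agent.P8H53.NK
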