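import Pool.Agent.P8H50.NK.PDefs
import Pool.Agent.P8H50.NK.Stm
import Pool.Agent.Y221.AB.Fn

/-!
Project NK, fourth part, package MKC (core, without the imports of Stm4).
-/

set_option autoImplicit false

namespace Pool.Agent.P8H53.NK

open Filter Topology Pool.Agent.P8H50.NK Pool.Agent.TH143.EL Pool.Agent.Y221.AB

theorem fn_lin {N : ℕ} (c : Fin N → ℂ) (x : Fin N → MK) {w : ℂ} (hx : ∀ a, Reg (x a) w) :
    Reg (∑ a, algebraMap ℂ MK (c a) * x a) w ∧
      Fn (∑ a, algebraMap ℂ MK (c a) * x a) w = ∑ a, c a * Fn (x a) w := by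
  obtain ⟨X, hX⟩ : ∃ X : Fin N → Oz w, X = fun a => ⟨x a, hx a⟩ := ⟨_, rfl⟩
  have hXa : ∀ a, (X a : MK) = x a := fun a => by rw [hX]
  have h1 : ((∑ a, c a • X a : Oz w) : MK) = ∑ a, algebraMap ℂ MK (c a) * x a := by
    rw [AddSubmonoidClass.coe_finset_sum]
    refine Finset.sum_congr rfl fun a _ => ?_
    rw [Subalgebra.coe_smul, Algebra.smul_def, hXa]
  have h2 : evO w (∑ a, c a • X a) = ∑ a, c a * Fn (x a) w := by
    rw [map_sum]
    refine Finset.sum_congr rfl fun a _ => ?_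
    rw [map_smul, evO_apply, smul_eq_mul, hXa]
  rw [evO_apply, h1] at h2
  exact ⟨by rw [← h1]; exact (∑ a, c a • X a : Oz w).2, h2⟩

theorem odr_prod {ι : Type*} (s : Finset ι) (f : ι → MK) (w : ℂ) :
    odr (∏ i ∈ s, f i) w = ∑ i ∈ s, odr (f i) w := by
  classical
  induction s using Finset.induction_on with
  | empty => rw [Finset.prod_empty, Finset.sum_empty, odr_one]
  | insert a s ha ih => rw [Finset.prod_insert ha, Finset.sum_insert ha, odr_mul, ih]

theorem odr_nat {x : MK} (hx : x ≠ 0) {w : ℂ} (hr : Reg x w) :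
    odr x w = ((analyticOrderNatAt (Fn x) w : ℤ) : WithTop ℤ) := by
  have h1 := odr_ne_top hx w
  unfold odr at h1 ⊢
  have h2 : AnalyticAt ℂ (Fn x) w := hr
  rw [h2.meromorphicOrderAt_eq] at h1 ⊢
  have h3 : analyticOrderAt (Fn x) w ≠ ⊤ := by
    intro h
    rw [h] at h1
    exact h1 rfl
  rw [← Nat.cast_analyticOrderNatAt h3]
  rfl

/-- the rank condition from the condition on common zeros (copy of `rk_of_zero` in NK/Geo.lean) -/
theorem rk_of_zero' {d q : ℕ} {M : Fin q → Fin d → ℂ} {A : Finset (Fin q)}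
    (h : ∀ x : Fin d → ℂ, (∀ j ∈ A, ∑ l, M j l * x l = 0) → x = 0) : rk M A = d := by
  classical
  unfold rk Pool.Agent.N750.rk
  have h1 : Submodule.span ℂ (M '' (A : Set (Fin q))) = ⊤ := by
    rw [← Submodule.dualAnnihilator_eq_bot_iff] <;> try infer_instance
    rw [eq_bot_iff]
    intro φ hφ
    rw [Submodule.mem_bot]
    rw [Submodule.mem_dualAnnihilator] at hφ
    have h2 := h (fun l => φ (Pi.single l 1)) (fun j hj => by
      have h3 := hφ (M j) (Submodule.subset_span ⟨j, hj, rfl⟩)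
      have h4 : M j = ∑ l, M j l • (Pi.single l 1 : Fin d → ℂ) := by
        funext i
        simp [Pi.single_apply]
      rw [h4, map_sum] at h3
      simpa only [map_smul, smul_eq_mul] using h3)
    apply LinearMap.pi_ext'
    intro l
    ext
    simpa using congrFun h2 l
  rw [h1, finrank_top, Module.finrank_fin_fun]

theorem mkcCore (hcur : S_CUR)
    (hN : ∀ (p : ℕ) (u : Fin (p + 1) → MK) (i0 : Fin (p + 1)), u i0 = 1 →
      ∃ (e : MK) (U : Fin (p + 1) → ℂ → ℂ), e ≠ 0 ∧ (∀ i, U i = Fn (e * u i)) ∧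
        (∀ i w, Reg (e * u i) w) ∧ ∀ w, ∃ i, U i w ≠ 0)
    (s : ℕ) (n : Fin s → ℕ) (r : ℕ) (D : PDat ℂ n r) (hD : D.Good)
    (y : ∀ j, Fin (n j + 1) → MK) (z : Fin r → MK) (hpt : D.Pt y z) (j : Fin s)
    (a : Fin (n j + 1)) : ∃ c : ℂ, y j a = algebraMap ℂ MK c := by
  classical
  choose a0 ha0 using hpt.one
  choose e0 U hne hU hreg hnz using fun j => hN (n j) (y j) (a0 j) (ha0 j)
  -- the forms are not zero
  have hlk : ∀ j l, lk (D.ℓ j l) (y j) ≠ 0 := by
    intro j l h0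
    obtain ⟨i, hi⟩ := hD.occ j l
    apply hpt.nz i
    have h1 := hpt.eq i
    rw [Finset.prod_eq_zero (Finset.mem_univ j) (Finset.prod_eq_zero (Finset.mem_univ l)
      (by rw [h0, zero_pow (by omega)]))] at h1
    exact (pow_eq_zero_iff (by have := hD.m_pos i; omega)).1 h1
  obtain ⟨x, hx⟩ : ∃ x : ∀ j, Fin (D.q j) → MK, x = fun j l => e0 j * lk (D.ℓ j l) (y j) :=
    ⟨_, rfl⟩
  have hx0 : ∀ j l, x j l ≠ 0 := fun j l => by rw [hx]; exact mul_ne_zero (hne j) (hlk j l)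
  have hform : ∀ j l w, Reg (x j l) w ∧ Fn (x j l) w = lf (D.ℓ j l) (U j) w := by
    intro j l w
    have h1 : x j l = ∑ a, algebraMap ℂ MK (D.ℓ j l a) * (e0 j * y j a) := by
      rw [hx]
      simp only [lk, Finset.mul_sum]
      exact Finset.sum_congr rfl fun a _ => by ring
    obtain ⟨h2, h3⟩ := fn_lin (D.ℓ j l) (fun a => e0 j * y j a) (fun a => hreg j a w)
    rw [h1]
    refine ⟨h2, h3.trans ?_⟩
    unfold lf
    exact Finset.sum_congr rfl fun a _ => by rw [hU j a]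
  have hfun : ∀ j l, lf (D.ℓ j l) (U j) = Fn (x j l) := fun j l =>
    funext fun w => (hform j l w).2.symm
  -- the orders
  have hdvd : ∀ i w, D.m i ∣
      ∑ j, ∑ l, D.e i j l * analyticOrderNatAt (lf (D.ℓ j l) (U j)) w := by
    intro i w
    choose Q hQ using hD.dvd i
    have hprod : ∏ j, ∏ l, x j l ^ D.e i j l = (z i * ∏ j, e0 j ^ Q j) ^ D.m i := by
      rw [mul_pow, hpt.eq i, ← Finset.prod_pow, ← Finset.prod_mul_distrib]
      refine Finset.prod_congr rfl fun j _ => ?_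
      rw [← pow_mul, mul_comm (Q j), ← hQ j, hx]
      simp only [mul_pow, Finset.prod_mul_distrib]
      rw [Finset.prod_pow_eq_pow_sum, mul_comm]
    have hne' : z i * ∏ j, e0 j ^ Q j ≠ 0 :=
      mul_ne_zero (hpt.nz i) (Finset.prod_ne_zero_iff.2 fun j _ => pow_ne_zero _ (hne j))
    have h1 := congrArg (fun v => odr v w) hprod
    simp only [odr_prod, odr_pow] at h1
    have h2 : ∀ j l, odr (x j l) w =
        ((analyticOrderNatAt (lf (D.ℓ j l) (U j)) w : ℤ) : WithTop ℤ) := by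
      intro j l
      rw [odr_nat (hx0 j l) (hform j l w).1, hfun j l]
    obtain ⟨K, hK⟩ := WithTop.ne_top_iff_exists.1 (odr_ne_top hne' w)
    simp only [h2] at h1
    rw [odr_mul, odr_prod] at hK
    simp only [odr_pow] at hK
    rw [odr_mul, odr_prod] at h1
    simp only [odr_pow] at h1
    rw [← hK] at h1
    simp only [← WithTop.coe_nsmul, ← WithTop.coe_sum, WithTop.coe_inj, nsmul_eq_mul] at h1
    refine Int.natCast_dvd_natCast.1 ⟨K, ?_⟩
    push_cast
    exact h1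
  -- the exponents
  obtain ⟨M, hM⟩ : ∃ M, M = ∏ i, D.m i := ⟨_, rfl⟩
  have hmM : ∀ i, D.m i ∣ M := fun i => by
    rw [hM]
    exact Finset.dvd_prod_of_mem _ (Finset.mem_univ i)
  have hM0 : 0 < M := by
    rw [hM]
    exact Finset.prod_pos fun i _ => hD.m_pos i
  have hMm : ∀ i, 1 ≤ M / D.m i := fun i =>
    Nat.div_pos (Nat.le_of_dvd hM0 (hmM i)) (hD.m_pos i)
  obtain ⟨e', he'⟩ : ∃ e' : ∀ j, Fin (D.q j) → ℕ,
    e' = fun j l => ∑ i, M / D.m i * D.e i j l := ⟨_, rfl⟩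
  have he'1 : ∀ j l, 1 ≤ e' j l := by
    intro j l
    obtain ⟨i, hi⟩ := hD.occ j l
    rw [he']
    refine le_trans ?_ (Finset.single_le_sum (f := fun i => M / D.m i * D.e i j l)
      (fun _ _ => Nat.zero_le _) (Finset.mem_univ i))
    exact Nat.mul_pos (hMm i) hi
  have hsumE : ∀ j, ∑ l, (e' j l : ℝ) = M * D.E j := by
    intro j
    rw [he']
    unfold PDat.E
    simp only [Nat.cast_sum, Nat.cast_mul]
    rw [Finset.sum_comm, Finset.mul_sum]
    refine Finset.sum_congr rfl fun i _ => ?_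
    have h1 : (D.m i : ℝ) ≠ 0 := by
      have := hD.m_pos i
      positivity
    rw [← Finset.mul_sum, Nat.cast_div (hmM i) h1]
    field_simp
  have hsum : ∀ w, ∑ j, ∑ l, e' j l * analyticOrderNatAt (lf (D.ℓ j l) (U j)) w =
      ∑ i, M / D.m i * ∑ j, ∑ l, D.e i j l * analyticOrderNatAt (lf (D.ℓ j l) (U j)) w := by
    intro w
    rw [he']
    simp only [Finset.sum_mul, Finset.mul_sum]
    rw [Finset.sum_comm]
    refine Finset.sum_congr rfl fun j _ => ?_
    rw [Finset.sum_comm]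
    exact Finset.sum_congr rfl fun i _ => Finset.sum_congr rfl fun l _ => by ring
  have hdich : ∀ w, (∑ j, ∑ l, e' j l * analyticOrderNatAt (lf (D.ℓ j l) (U j)) w = 0) ∨
      M ≤ ∑ j, ∑ l, e' j l * analyticOrderNatAt (lf (D.ℓ j l) (U j)) w := by
    intro w
    by_cases h : ∀ i, ∑ j, ∑ l, D.e i j l * analyticOrderNatAt (lf (D.ℓ j l) (U j)) w = 0
    · left
      rw [hsum]
      exact Finset.sum_eq_zero fun i _ => by rw [h i, mul_zero]
    · right
      push Not at h
      obtain ⟨i, hi⟩ := h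
      rw [hsum]
      refine le_trans ?_ (Finset.single_le_sum (f := fun i => M / D.m i *
        ∑ j, ∑ l, D.e i j l * analyticOrderNatAt (lf (D.ℓ j l) (U j)) w)
        (fun _ _ => Nat.zero_le _) (Finset.mem_univ i))
      calc M = M / D.m i * D.m i := (Nat.div_mul_cancel (hmM i)).symm
        _ ≤ _ := Nat.mul_le_mul_left _ (Nat.le_of_dvd (Nat.pos_of_ne_zero hi) (hdvd i w))
  obtain ⟨ρ, hρ0, hρ1, hρ⟩ := hD.small
  have hMr : (0 : ℝ) < M := by exact_mod_cast hM0
  have hmain := hcur s (fun j => n j + 1) D.q D.t D.ℓ e' M (fun j => M * ρ j) U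
    (fun j => ⟨by have := (hD.dim j).1; omega, (hD.dim j).2⟩)
    (fun j A hA => rk_of_zero' fun v hv => hD.mult j A hA v hv) he'1
    (fun j => ⟨mul_nonneg hMr.le (hρ0 j), fun k hk2 hkn => by
      have h1 := hρ j (k - 1) (by omega) (by omega)
      have hk : ((k - 1 : ℕ) : ℝ) = (k : ℝ) - 1 := by
        rw [Nat.cast_sub (by omega), Nat.cast_one]
      rw [hk] at h1
      rw [hsumE]
      have h2 := mul_le_mul_of_nonneg_left h1 hMr.le
      calc ((k : ℝ) - 1) * (2 * D.t j - k + 2) * (M * D.E j) =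
          M * (((k : ℝ) - 1) * (2 * D.t j + 1 - ((k : ℝ) - 1)) * D.E j) := by ring
        _ ≤ M * (2 * ρ j * (D.q j - (2 * D.t j + 1 - ((k : ℝ) - 1)))) := h2
        _ = _ := by ring⟩)
    (by
      rw [← Finset.mul_sum]
      calc (M : ℝ) * ∑ j, ρ j < M * 1 := mul_lt_mul_of_pos_left hρ1 hMr
        _ = M := mul_one _)
    (fun j a w => by
      rw [hU j a]
      exact AnalyticAt.differentiableAt (hreg j a w))
    hnz
    (fun j l => by
      rw [hfun j l]
      exact (Fn_ne_codis (hx0 j l)).exists)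
    hdich
  -- the conclusion
  obtain ⟨w0, hw0⟩ : ∃ w0, U j (a0 j) w0 ≠ 0 := by
    rw [hU j (a0 j), ha0 j, mul_one]
    exact (Fn_ne_codis (hne j)).exists
  obtain ⟨c, hc⟩ : ∃ c, c = U j a w0 / U j (a0 j) w0 := ⟨_, rfl⟩
  have h1 : ∀ w, Fn (e0 j * y j a) w = c * Fn (e0 j) w := by
    intro w
    obtain ⟨t, _, ht⟩ := hmain j w0 w
    have h2 := ht a
    have h3 := ht (a0 j)
    have h4 : Fn (e0 j) w = U j (a0 j) w := by rw [hU j (a0 j), ha0 j, mul_one]
    rw [← hU j a, h2, h4, h3, hc]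
    field_simp
  have h5 : e0 j * y j a = algebraMap ℂ MK c * e0 j := by
    refine (cl_Fn _).symm.trans (Eq.trans (cl_eq.2 ?_) (cl_Fn _))
    filter_upwards [Fn_mul_codis (algebraMap ℂ MK c) (e0 j), Fn_const_codis c] with w h6 h7
    rw [h6, h7, h1]
  refine ⟨c, mul_left_cancel₀ (hne j) ?_⟩
  rw [h5, mul_comm]

end Pool.Agent.P8H53.NK
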