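import Pool.Agent.P8H50.NK.Stm4
import Pool.Agent.P8H53.NK.MkcCore
import Pool.Agent.Y221.AB.Wei

/-!
Project NK, fourth part, package MKC.
-/

set_option autoImplicit false

namespace Pool.Agent.P8H53.NK

theorem mkc (hcur : Pool.Agent.P8H50.NK.S_CUR) : Pool.Agent.P8H50.NK.S_MKC := by
  intro s n r D hD y z hpt j a
  refine mkcCore hcur (fun p u i0 h0 => ?_) s n r D hD y z hpt j a
  obtain ⟨e, U, h⟩ := Pool.Agent.Y221.AB.exists_nrm u h0
  exact ⟨e, U, h.ne, h.eq, h.reg, h.nz⟩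

end Pool.Agent.P8H53.NK
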